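import Pool.Agent.Lib.helper21.Num

set_option autoImplicit false

/-! Domination between approximations, and density to the right of a left enumerable random. -/

namespace Pool.Agent.H.MP_a2e505_lc

open Pool.Agent.Lib.helper21.PR Pool.Agent.Lib.helper21.ML Finset

attribute [local irreducible] Primrec Computable

theorem sum_dbl {M : Type} [AddCommMonoid M] (f : ℕ → M) (N : ℕ) :
    ∑ y ∈ range (2 * N), f (y / 2) = ∑ y ∈ range N, f y + ∑ y ∈ range N, f y := by
  induction N with
  | zero => simp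
  | succ N ih =>
    rw [mul_add, mul_one, sum_range_succ, sum_range_succ, ih, sum_range_succ,
      show (2 * N + 1) / 2 = N by omega, show 2 * N / 2 = N by omega]
    abel

variable {X Y : ℕ → Bool} {a b : ℕ → ℕ}

theorem ks (hX : Rand X) (ha : Apx X a) (hb : Apx Y b) : ∃ c, ∀ t d,
    b (t + d) + 2 ^ c * a t * 2 ^ d ≤ b t * 2 ^ d + 2 ^ c * (num X (t + d) + 1) := by
  classical
  have pa := ha.prim
  have pb := hb.prim
  let r : ℕ → ℕ → ℕ := fun c s =>
    Nat.rec 0 (fun s r => 2 * max r (a s * 2 ^ c) + (b (s + 1) - 2 * b s)) s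
  have e : ∀ c s, r c (s + 1) = 2 * max (r c s) (a s * 2 ^ c) + (b (s + 1) - 2 * b s) :=
    fun _ _ => rfl
  have pr : Primrec fun z : ℕ × ℕ => r z.1 z.2 := by unfold r; fun_prop
  have e0 : ∀ c, r c 0 = 0 := fun _ => rfl
  clear_value r
  let V : ℕ → ℕ → ℕ → Prop := fun c u y => ∃ s d, u = s + 1 + c + d ∧
    2 * max (r c s) (a s * 2 ^ c) ≤ y / 2 ^ d ∧ y / 2 ^ d < r c (s + 1)
  have cnt : ∀ c u, ((range (2 ^ u)).filter (V c u)).card ≤ b (u - c) := fun c u => by
    induction u with
    | zero =>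
      rw [filter_false_of_mem fun y _ ⟨s, d, h, _⟩ => by omega]
      exact Nat.zero_le _
    | succ u ih =>
      rcases lt_or_ge u c with h | h
      · rw [filter_false_of_mem fun y _ ⟨s, d, h, _⟩ => by omega]
        exact Nat.zero_le _
      obtain ⟨t, rfl⟩ := Nat.exists_eq_add_of_le' h
      have h1 : ((range (2 ^ (t + c + 1))).filter fun y => V c (t + c) (y / 2)).card =
          ((range (2 ^ (t + c))).filter (V c (t + c))).card +
            ((range (2 ^ (t + c))).filter (V c (t + c))).card := by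
        simpa only [card_filter, pow_succ'] using
          sum_dbl (fun y => if V c (t + c) y then 1 else 0) (2 ^ (t + c))
      have h2 := card_le_card (s := (range (2 ^ (t + c + 1))).filter (V c (t + c + 1)))
        (t := (range (2 ^ (t + c + 1))).filter (fun y => V c (t + c) (y / 2)) ∪
          Ico (2 * max (r c t) (a t * 2 ^ c)) (r c (t + 1))) fun y hy => by
        obtain ⟨h3, s, d, h4, h5⟩ := mem_filter.1 hy
        rcases d with _ | d
        · obtain rfl : s = t := by omega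
          exact mem_union_right _ (mem_Ico.2 (by simpa using h5))
        · exact mem_union_left _ (mem_filter.2 ⟨h3, s, d, by omega, by
            rwa [Nat.div_div_eq_div_mul, ← pow_succ']⟩)
      have h3 := h2.trans (card_union_le _ _)
      have h4 := hb.mono t
      rw [Nat.card_Ico, e] at h3
      rw [Nat.add_sub_cancel] at ih
      rw [show t + c + 1 - c = t + 1 by omega]
      omega
  obtain ⟨c, hc⟩ := hX.mono (V := V) (RE.un (RE.re (by unfold V; fun_prop)))
    (fun c u y ⟨s, d, h1, h2⟩ => ⟨s, d + 1, by omega, by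
      rwa [Nat.div_div_eq_div_mul, ← pow_succ'] at h2⟩) fun c u => by
    rcases lt_or_ge u c with h | h
    · rw [filter_false_of_mem fun y _ ⟨s, d, h, _⟩ => by omega]
      simp
    · obtain ⟨t, rfl⟩ := Nat.exists_eq_add_of_le' h
      refine le_trans (Nat.mul_le_mul_right _ (le_trans (cnt c _) ?_)) (pow_add 2 t c).ge
      rw [Nat.add_sub_cancel]
      exact ((hb.le t).trans_lt (num_lt _ _)).le
  have h1 : ∀ s, r c s ≤ num X (s + c) := fun s => by
    induction s with
    | zero => simp [e0]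
    | succ s ih =>
      have h2 := (Nat.mul_le_mul_right _ (ha.le s)).trans (num_add X s c).1
      have h3 := num_succ X (s + c)
      refine not_lt.1 fun h => hc (s + 1 + c) ⟨s, 0, rfl, ?_, by simpa using h⟩
      rw [pow_zero, Nat.div_one, add_right_comm]
      omega
  refine ⟨c, fun t d => ?_⟩
  have h2 : b (t + d) + 2 ^ c * a t * 2 ^ d ≤ b t * 2 ^ d + max (r c (t + d)) (a (t + d) * 2 ^ c) := by
    induction d with
    | zero => simp [mul_comm]
    | succ d ih =>
      have := hb.mono (t + d)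
      have := le_max_left (r c (t + d + 1)) (a (t + d + 1) * 2 ^ c)
      rw [e] at this
      rw [← add_assoc, pow_succ, ← mul_assoc, ← mul_assoc, e]
      omega
  have h3 := (num_add X (t + d) c).2
  have h4 := (Nat.mul_le_mul_right _ (ha.le _)).trans (num_add X (t + d) c).1
  have h5 := h1 (t + d)
  rw [mul_comm] at h3
  omega

section
variable (a) (bad : ℕ → ℕ → Bool) (e : ℕ)

def qual (g : ℕ → ℕ × Bool) (s h : ℕ) : Prop := a s + h ≤ 2 ^ s ∧
  (∀ i < h, g (a s + i) = ((g (a s)).1, false)) ∧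
    h ≤ 2 ^ e * ((range h).filter fun i => bad s (a s + i) = true).card

open Classical in
noncomputable def upd (g : ℕ → ℕ × Bool) (s y : ℕ) : ℕ × Bool :=
  if ∃ h ≤ 2 ^ s, qual a bad e g s h ∧ a s ≤ y ∧ y < a s + h then
    (if bad s y = true then ((g y).1, true) else ((g y).1 + 1, false)) else g y

noncomputable def st (s y : ℕ) : ℕ × Bool :=
  (Nat.rec (motive := fun _ => List (ℕ × Bool)) [] (fun s L => (List.range (2 ^ (s + 1))).map
    fun y => upd a bad e (fun i => L.getD i (0, false)) s (y / 2)) s).getD y (0, false)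

theorem st_succ {s y : ℕ} (h : y < 2 ^ (s + 1)) :
    st a bad e (s + 1) y = upd a bad e (st a bad e s) s (y / 2) := by
  simp only [st, List.getD_eq_getElem?_getD, List.getElem?_map, List.getElem?_range h]
  rfl

theorem top (g : ℕ → ℕ × Bool) (s : ℕ) : ∃ h, (qual a bad e g s h ∨ h = 0) ∧
    (∀ k, qual a bad e g s k → k ≤ h) ∧ ∀ y,
    upd a bad e g s y = if a s ≤ y ∧ y < a s + h then
      (if bad s y = true then ((g y).1, true) else ((g y).1 + 1, false)) else g y := by
  classical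
  have h1 : ∀ k, qual a bad e g s k → k ≤ Nat.findGreatest (qual a bad e g s) (2 ^ s) :=
    fun k hk => Nat.le_findGreatest (by have := hk.1; omega) hk
  have h2 := or_iff_not_imp_right.2 (Nat.findGreatest_of_ne_zero
    (P := qual a bad e g s) (n := 2 ^ s) rfl)
  refine ⟨_, h2, h1, fun y => if_congr ⟨fun ⟨k, _, c, d⟩ => ?_, fun d => ?_⟩ rfl rfl⟩
  · have := h1 k c
    omega
  · exact ⟨_, Nat.findGreatest_le _, h2.resolve_right (by omega), d⟩

theorem pot (n s : ℕ) : 0 ≤ ∑ y ∈ range (2 ^ s), (if st a bad e s y = (n, true) then 2 ^ e - 1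
    else if n < (st a bad e s y).1 then -1 else 0 : ℤ) := by
  induction s with
  | zero => simp [st]
  | succ s ih =>
    rw [sum_congr rfl fun y hy => by rw [st_succ a bad e (mem_range.1 hy)], pow_succ', sum_dbl
      fun y => (if upd a bad e (st a bad e s) s y = (n, true) then 2 ^ e - 1
        else if n < (upd a bad e (st a bad e s) s y).1 then -1 else 0 : ℤ)]
    refine add_nonneg (ih.trans ?_) (ih.trans ?_) <;>
    · obtain ⟨h, h1, -, h2⟩ := top a bad e (st a bad e s) s
      simp only [h2]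
      rcases h1 with ⟨h3, h4, h5⟩ | rfl
      swap
      · exact sum_le_sum fun y _ => by rw [if_neg (show ¬ (a s ≤ y ∧ y < a s + 0) by omega)]
      rw [← sub_nonneg, ← sum_sub_distrib, ← sum_subset (s₁ := Ico (a s) (a s + h))
        (fun y hy => mem_range.2 ((mem_Ico.1 hy).2.trans_le h3))
        fun y _ hy => by rw [if_neg (mt mem_Ico.2 hy), sub_self], sum_Ico_eq_sum_range,
        Nat.add_sub_cancel_left, sum_congr rfl (g := fun i => if (st a bad e s (a s)).1 = n then
          (if bad s (a s + i) = true then 2 ^ e else 0) - 1 else 0) fun i hi => by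
          rw [if_pos (show a s ≤ a s + i ∧ a s + i < a s + h from
            ⟨by omega, by simpa using hi⟩), h4 i (mem_range.1 hi)]
          grind]
      split_ifs
      · rw [sum_sub_distrib, ← sum_filter, sum_const, sum_const, card_range, sub_nonneg]
        simp only [nsmul_eq_mul, mul_one]
        rw [mul_comm]
        exact_mod_cast h5
      · simp

theorem lev (n s : ℕ) :
    ((range (2 ^ s)).filter fun y => n ≤ (st a bad e s y).1).card * (2 ^ e) ^ n ≤
      (2 ^ e - 1) ^ n * 2 ^ s := by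
  induction n with
  | zero => simp
  | succ n ih =>
    have h : ((range (2 ^ s)).filter fun y => n + 1 ≤ (st a bad e s y).1).card * 2 ^ e ≤
        (2 ^ e - 1) * ((range (2 ^ s)).filter fun y => n ≤ (st a bad e s y).1).card := by
      zify [Nat.one_le_two_pow]
      simp only [card_filter]
      push_cast
      rw [sum_mul, mul_sum]
      refine (le_add_of_nonneg_right (pot a bad e n s)).trans ?_
      rw [← sum_add_distrib]
      refine sum_le_sum fun y _ => ?_
      have : (1 : ℤ) ≤ 2 ^ e := one_le_pow₀ one_le_two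
      grind
    calc _ = _ * 2 ^ e * (2 ^ e) ^ n := by rw [pow_succ', mul_assoc]
      _ ≤ _ := Nat.mul_le_mul_right _ h
      _ ≤ (2 ^ e - 1) * ((2 ^ e - 1) ^ n * 2 ^ s) := by
        rw [mul_assoc]; exact Nat.mul_le_mul_left _ ih
      _ = _ := by rw [pow_succ', mul_assoc]

end

theorem half (E : ℕ) : 2 * E ^ (E + 1) ≤ (E + 1) ^ (E + 1) := by
  have := pow_add_mul_le_add_pow (Nat.zero_le E) (Nat.zero_le (2 * E + 1)) (E + 1)
  simp only [Nat.add_sub_cancel, Nat.cast_id, mul_one] at this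
  rw [pow_succ] at this ⊢
  nlinarith [Nat.zero_le (E ^ E)]

theorem dens (hX : Rand X) (ha : Apx X a) {V : ℕ → ℕ → Prop} [∀ s, DecidablePred (V s)]
    (hV : RE fun z : ℕ × ℕ => V z.1 z.2) (h0 : ∀ s, ¬ V s (num X s)) (e : ℕ) : ∃ j0, ∀ j, j0 ≤ j →
      ∀ i, ((range (2 ^ i)).filter fun v => V (j + i) (num X (j + i) + v)).card * 2 ^ e ≤ 2 ^ i := by
  classical
  obtain ⟨N, n1, n2, n3, n4⟩ := re_bool (r_pw hV).re
  have pa := ha.prim
  let bad : ℕ → ℕ → Bool := fun s y => decide (∃ m ≤ s, N (m, y / 2 ^ (s - m)) s = true)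
  have pb : Primrec fun z : ℕ × ℕ => bad z.1 z.2 := by unfold bad; fun_prop
  have b1 : ∀ s, bad s (num X s) ≠ true := fun s h =>
    let ⟨m, h1, h2⟩ := of_decide_eq_true h
    h0 m (num_div' X h1 ▸ n2 _ _ h2)
  have b2 : ∀ s y, V s y → ∃ t, ∀ u, t ≤ u → ∀ z, z / 2 ^ u = y → bad (s + u) z = true :=
    fun s y h => let ⟨t, ht⟩ := n4 (s, y) h
      ⟨t, fun u hu z hz => decide_eq_true ⟨s, by omega, by
        rw [Nat.add_sub_cancel_left, hz]; exact n3 _ _ _ (by omega) ht⟩⟩
  clear_value bad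
  let g := st a bad (e + 1)
  have pg : Primrec fun z : ℕ × ℕ => g z.1 z.2 := by unfold g st upd qual; fun_prop
  have g1 : ∀ s, ∃ h, (qual a bad (e + 1) (g s) s h ∨ h = 0) ∧
      (∀ k, qual a bad (e + 1) (g s) s k → k ≤ h) ∧ ∀ y < 2 ^ (s + 1),
      g (s + 1) y = if a s ≤ y / 2 ∧ y / 2 < a s + h then (if bad s (y / 2) = true then
        ((g s (y / 2)).1, true) else ((g s (y / 2)).1 + 1, false)) else g s (y / 2) := fun s =>
    let ⟨h, h1, h2, h3⟩ := top a bad (e + 1) (g s) s
    ⟨h, h1, h2, fun y hy => (st_succ a bad (e + 1) hy).trans (h3 _)⟩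
  obtain ⟨n, hn⟩ := hX.mono (V := fun n s y => y < 2 ^ s ∧ 2 ^ (e + 1) * n ≤ (g s y).1)
    (RE.un (RE.re (by fun_prop))) (fun n s y ⟨h1, h2⟩ => by
      obtain ⟨h, -, -, h3⟩ := g1 s
      have := h3 y (by omega)
      grind) fun n s => by
    have h1 := lev a bad (e + 1) (2 ^ (e + 1) * n) s
    obtain ⟨E, hE⟩ := Nat.exists_eq_add_of_le' (Nat.one_le_two_pow (n := e + 1))
    rw [hE, Nat.add_sub_cancel, pow_mul, pow_mul] at h1
    have h2 := Nat.pow_le_pow_left (half E) n
    rw [mul_pow] at h2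
    refine le_trans (Nat.mul_le_mul_right _ (card_le_card (t := (range (2 ^ s)).filter
      fun y => (E + 1) * n ≤ (g s y).1) fun y hy => by
        simp only [mem_filter, hE] at hy ⊢; exact ⟨hy.1, hy.2.2⟩)) ?_
    refine Nat.le_of_mul_le_mul_right ?_ (show 0 < ((E + 1) ^ (E + 1)) ^ n by positivity)
    calc _ = _ * 2 ^ n := mul_right_comm _ _ _
      _ ≤ _ := Nat.mul_le_mul_right _ h1
      _ = 2 ^ s * (2 ^ n * (E ^ (E + 1)) ^ n) := by ring
      _ ≤ _ := Nat.mul_le_mul_left _ h2
  have x2 : ∀ s, num X (s + 1) / 2 = num X s := fun s => by simpa using num_div X s 1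
  have g2 : ∀ s, (g s (num X s)).2 = false := fun s => by
    induction s with
    | zero => simp [g, st]
    | succ s ih =>
      obtain ⟨h, -, -, h3⟩ := g1 s
      have := h3 _ (num_lt X _)
      have := b1 s
      grind
  obtain ⟨l, s0, hl⟩ : ∃ l s0, ∀ s, s0 ≤ s → (g s (num X s)).1 = l := by
    obtain ⟨l, s0, h⟩ := converges_of_monotone_of_bounded (f := fun s => (g s (num X s)).1)
      (monotone_nat_of_le_succ fun s => by
        obtain ⟨h, -, -, h3⟩ := g1 s
        have := h3 _ (num_lt X _)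
        grind) fun s => (not_le.1 fun h => hn s ⟨num_lt _ _, h⟩).le
    exact ⟨l, s0, h⟩
  have f1 : ∀ s, s0 ≤ s → ∀ k, qual a bad (e + 1) (g s) s k → a s + k ≤ num X s := by
    intro s hs k hk
    obtain ⟨h, -, h2, h3⟩ := g1 s
    have := h3 _ (num_lt X _)
    have := b1 s
    have := hl s hs
    have := hl (s + 1) (by omega)
    have := ha.le s
    have := h2 k hk
    grind
  let W : ℕ → ℕ → Prop := fun d p => p ≤ num X (s0 + d) ∧
    (∀ y, p ≤ y → y < (num X s0 + 1) * 2 ^ d → g (s0 + d) y = (l, false)) ∧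
    (p = num X s0 * 2 ^ d ∨ 0 < p ∧ (l < (g (s0 + d) (p - 1)).1 ∨ (g (s0 + d) (p - 1)).2 = true))
  have w1 : ∀ d p, W d p → ∃ q, W (d + 1) q ∧
      (num X s0 * 2 ^ d ≤ a (s0 + d) → a (s0 + d) < p → q = 2 * p) := by
    rintro d p ⟨c1, c2, c3⟩
    obtain ⟨h, h1, -, h3⟩ := g1 (s0 + d)
    have c4 := (num_add X s0 d).2
    have c5 : (num X s0 + 1) * 2 ^ d ≤ 2 ^ (s0 + d) :=
      pow_add 2 s0 d ▸ Nat.mul_le_mul_right _ (num_lt X s0)
    have c6 := num_succ X (s0 + d)
    have c7 := pow_succ 2 (s0 + d)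
    simp only [W, ← add_assoc, pow_succ, ← mul_assoc]
    by_cases c : a (s0 + d) + h ≤ p ∨ h = 0
    · refine ⟨2 * p, ⟨by omega, fun y d1 d2 => ?_, c3.imp (by omega) fun ⟨d1, d2⟩ =>
        ⟨by omega, ?_⟩⟩, fun _ _ => rfl⟩
      · rw [h3 y (by omega), if_neg (by omega), c2 _ (by omega) (by omega)]
      · have d3 := h3 (2 * p - 1) (by omega)
        rw [show (2 * p - 1) / 2 = p - 1 by omega] at d3
        rw [d3]
        split_ifs with d4
        · simp
        · have := (h1.resolve_right (by omega)).2.1 (p - 1 - a (s0 + d)) (by omega)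
          grind
        · exact d2
    · have d0 := h1.resolve_right (by omega)
      have d1 := f1 _ (by omega) _ d0
      refine ⟨2 * (a (s0 + d) + h), ⟨by omega, fun y d2 d3 => ?_, Or.inr ⟨by omega, ?_⟩⟩,
        fun d2 d3 => ?_⟩
      · rw [h3 y (by omega), if_neg (by omega), c2 _ (by omega) (by omega)]
      · rw [h3 _ (by omega), if_pos (by omega), c2 _ (by omega) (by omega)]
        split_ifs <;> simp
      · have e1 := d0.2.1 (p - 1 - a (s0 + d)) (by omega)
        have e2 := d0.2.1 (p - a (s0 + d)) (by omega)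
        have e3 := c2 p le_rfl (by omega)
        grind
  have w2 : ∀ d, ∃ p, W d p := fun d => by
    induction d with
    | zero =>
      refine ⟨num X s0, le_rfl, fun y c1 c2 => ?_, Or.inl (by simp)⟩
      obtain rfl : y = num X s0 := by omega
      exact Prod.ext (hl _ le_rfl) (g2 _)
    | succ d ih => exact let ⟨_, h⟩ := ih; (w1 _ _ h).imp fun _ => And.left
  obtain ⟨d1, hd⟩ := ha.ev s0
  have w3 : ∀ u d p, d1 ≤ d → W d p → p * 2 ^ u ≤ a (s0 + d + u) → ∃ d', d ≤ d' ∧
      ∀ y, a (s0 + d') ≤ y → y < (num X s0 + 1) * 2 ^ d' → g (s0 + d') y = (l, false) := by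
    intro u
    induction u with
    | zero => exact fun d p _ c1 c2 => ⟨d, le_rfl, fun y c3 => c1.2.1 y (by simp at c2; omega)⟩
    | succ u ih =>
      intro d p c0 c1 c2
      rcases le_or_gt p (a (s0 + d)) with c | c
      · exact ⟨d, le_rfl, fun y c3 => c1.2.1 y (c.trans c3)⟩
      · obtain ⟨q, c3, c4⟩ := w1 d p c1
        obtain rfl := c4 (hd d c0).1 c
        obtain ⟨d', c5, c6⟩ := ih (d + 1) _ (by omega) c3 (by
          rw [show s0 + (d + 1) + u = s0 + d + (u + 1) by omega, mul_comm 2, mul_assoc, ← pow_succ']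
          exact c2)
        exact ⟨d', by omega, c6⟩
  obtain ⟨c, hc⟩ := hX.run
  obtain ⟨i0, c1, -, c2⟩ := hc s0 false
  refine ⟨i0 + 2, fun j hj i => not_lt.1 fun hi => ?_⟩
  obtain ⟨k, rfl⟩ : ∃ k, j = i0 + 1 + (k + 1) := ⟨j - (i0 + 2), by omega⟩
  have c3 := (gap (d := k + 1) c1).2 c2
  have c4 : 2 ≤ 2 ^ (k + 1) := Nat.le_self_pow (by omega) 2
  generalize i0 + 1 + (k + 1) = j at *
  obtain ⟨w, rfl⟩ := Nat.exists_eq_add_of_le (show s0 ≤ j by omega)
  rw [Nat.add_sub_cancel_left] at c3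
  choose! t ht using b2 (s0 + w + i)
  obtain ⟨t1, h1⟩ := ha.ev (s0 + w)
  obtain ⟨p, hp⟩ := w2 (d1 + w + i + t1 + (range (2 ^ i)).sup fun v => t (num X (s0 + w + i) + v))
  obtain ⟨u, hu⟩ := ha.lim (s0 + (d1 + w + i + t1 +
    (range (2 ^ i)).sup fun v => t (num X (s0 + w + i) + v)))
  obtain ⟨d, c5, c6⟩ := w3 u _ p (by omega) hp ((Nat.mul_le_mul_right _ hp.1).trans hu)
  obtain ⟨r, rfl⟩ := Nat.exists_eq_add_of_le (show w + i ≤ d by omega)
  have c7 := (h1 (i + r) (by omega)).1
  have c8 := (num_add X (s0 + w) (i + r)).2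
  have c9 := (num_add X (s0 + w + i) r).2
  have c10 := Nat.mul_le_mul_right (2 ^ r) (num_add X (s0 + w) i).2
  have c11 := Nat.mul_le_mul_right (2 ^ (i + r)) (Nat.succ_le_of_lt c3)
  have c12 := Nat.mul_le_mul_right (2 ^ (i + r)) c4
  have c13 : (num X s0 + 1) * 2 ^ (w + i + r) ≤ 2 ^ (s0 + (w + i + r)) :=
    pow_add 2 s0 _ ▸ Nat.mul_le_mul_right _ (num_lt X s0)
  have c14 := ha.le (s0 + (w + i + r))
  rw [mul_assoc, ← pow_add] at c10 c11
  simp only [← add_assoc, Nat.succ_eq_add_one, add_mul, one_mul] at c6 c7 c8 c9 c10 c11 c13 c14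
  have := f1 (s0 + w + i + r) (by omega) (2 * 2 ^ (i + r)) ⟨by omega, fun v hv => by
    rw [c6 _ (by omega) (by omega), c6 _ le_rfl (by omega)], ?_⟩
  · omega
  rw [pow_succ', mul_assoc]
  refine Nat.mul_le_mul_left _ ((pow_add 2 i r).trans_le ((Nat.mul_le_mul_right _ hi.le).trans ?_))
  rw [mul_comm _ (2 ^ e), mul_assoc, ← card_range (2 ^ r), ← card_product]
  refine Nat.mul_le_mul_left _ (card_le_card_of_injOn (fun z => (num X (s0 + w + i) + z.1) * 2 ^ r +
    z.2 - a (s0 + w + i + r)) (fun ⟨v, z⟩ hz => ?_) fun ⟨v, z⟩ hz ⟨v', z'⟩ hz' q => ?_)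
  all_goals
    simp only [coe_product, coe_filter, coe_range, Set.mem_prod, Set.mem_setOf_eq, mem_range,
      Set.mem_Iio] at *
    have q1 : ∀ v, V (s0 + w + i) (num X (s0 + w + i) + v) →
        (num X (s0 + w + i) + 1) * 2 ^ r ≤ (num X (s0 + w + i) + v) * 2 ^ r := fun v hv =>
      Nat.mul_le_mul_right _ (by
        rcases v with _ | v
        exacts [(h0 _ hv).elim, by omega])
    have q2 := q1 v hz.1.2
    rw [add_mul, one_mul] at q2
  · have q3 := Nat.mul_le_mul_right (2 ^ r) (Nat.add_le_add_left (Nat.succ_le_of_lt hz.1.1)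
      (num X (s0 + w + i)))
    rw [Nat.succ_eq_add_one, ← add_assoc, add_mul _ 1, add_mul _ (2 ^ i), ← pow_add, one_mul] at q3
    refine ⟨by omega, ht _ hz.1.2 r ?_ _ ?_⟩
    · have := le_sup (f := fun v => t (num X (s0 + w + i) + v)) (mem_range.2 hz.1.1)
      omega
    · rw [Nat.add_sub_cancel' (by omega), add_comm, Nat.add_mul_div_right _ _ (by positivity),
        Nat.div_eq_of_lt hz.2, zero_add]
  · have q3 := q1 v' hz'.1.2
    rw [add_mul, one_mul] at q3
    have q4 : z + (num X (s0 + w + i) + v) * 2 ^ r = z' + (num X (s0 + w + i) + v') * 2 ^ r := by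
      omega
    have q5 := congrArg (· / 2 ^ r) q4
    simp only [Nat.add_mul_div_right _ _ (show 0 < 2 ^ r by positivity), Nat.div_eq_of_lt hz.2,
      Nat.div_eq_of_lt hz'.2] at q5
    obtain rfl : v = v' := by omega
    exact Prod.ext rfl (by omega)

end Pool.Agent.H.MP_a2e505_lc
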