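import Pool.Agent.H.MP_a2e505_lc.A

set_option autoImplicit false

/-! Truth table reductions between left enumerable random reals can be inverted. -/

namespace Pool.Agent.H.MP_a2e505_lc

open Pool.Agent.H.MP_fa2eca_lc Pool.Agent.Lib.helper21.PR Pool.Agent.Lib.helper21.ML Finset

attribute [local irreducible] Primrec Computable

/-- Truth table reducibility. -/
def TT (A B : ℕ → Bool) : Prop := ∃ (p : ℕ → List ℕ) (g : ℕ → List Bool → Bool),
  Computable p ∧ Computable₂ g ∧ ∀ n, A n = g n ((p n).map B)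

variable {X Y : ℕ → Bool} {a b : ℕ → ℕ}

theorem ks2 (hX : Rand X) (ha : Apx X a) (hb : Apx Y b) : ∃ c, ∀ C, 2 ^ c ≤ C → ∀ m u k v,
    m + u = k + v → num Y k * 2 ^ v + C * (a (m + u) / 2 ^ u * 2 ^ u) ≤
      (b (m + u) / 2 ^ v + 1) * 2 ^ v + C * ((num X m + 1) * 2 ^ u) := by
  obtain ⟨c, hc⟩ := ks hX ha hb
  refine ⟨c, fun C hC m u k v e => ?_⟩
  obtain ⟨E, rfl⟩ := Nat.exists_eq_add_of_le hC
  obtain ⟨w, hw⟩ := hb.ev k
  have h1 := (hw (v + w) (by omega)).1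
  have h2 := hc (m + u) w
  have h3 := Nat.succ_le_of_lt (num_add X m (u + w)).2
  have h4 := Nat.div_mul_le_self (a (m + u)) (2 ^ u)
  have h5 := Nat.mul_le_mul_right (2 ^ w) 
    (Nat.lt_mul_div_succ (b (m + u)) (show 0 < 2 ^ v by positivity)).le
  have h6 := Nat.mul_le_mul_left E (h4.trans ((ha.le _).trans (num_add X m u).2.le))
  have h7 := Nat.mul_le_mul_left (2 ^ c) h3
  have h8 := Nat.mul_le_mul_right (2 ^ w) (Nat.mul_le_mul_left (2 ^ c) h4)
  rw [← add_assoc, ← e, pow_add] at h1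
  rw [← add_assoc, pow_add] at h7
  have h9 := Nat.mul_le_mul_right (2 ^ w) h6
  refine Nat.le_of_mul_le_mul_right ?_ (show 0 < 2 ^ w by positivity)
  nlinarith

def near (C D x b y f : ℕ) : Prop :=
  f * D + C * x ≤ b * D + C * y + (C + 1) * D ∧ y + C * b * D ≤ x + C * f * D + (C + 1) * D

open Classical in
def good (c d s b : ℕ) (f : ℕ → ℕ) (x : ℕ) : Prop := ∀ i ≤ s, ((range (2 ^ i)).filter fun v =>
  ¬ near (2 ^ c) (2 ^ d) x b (x + v) (f (x + v))).card * 2 ^ (2 * c + 5) ≤ 2 ^ i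

theorem uniq {c d s b : ℕ} {f : ℕ → ℕ} {x y : ℕ} (hx : good c d (s + 2) b f x)
    (hy : good c d (s + 2) b f y) (h : y < x + 2 ^ s) : y ≤ x + 2 ^ (d + (2 * c + 5)) := by
  classical
  refine not_lt.1 fun h0 => ?_
  have z1 : 0 < 2 ^ (d + (2 * c + 5)) := by positivity
  obtain ⟨z, rfl⟩ := Nat.exists_eq_add_of_le (show x ≤ y by omega)
  have z0 : z ≠ 0 := by omega
  have h1 := Nat.pow_log_le_self 2 z0
  have h2 := Nat.lt_pow_succ_log_self one_lt_two z
  have h3 := (Nat.log_lt_iff_lt_pow one_lt_two z0).2 (show z < 2 ^ s by omega)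
  obtain ⟨l, hl⟩ := Nat.exists_eq_add_of_le (Nat.le_log_of_pow_le one_lt_two
    (show 2 ^ (d + (2 * c + 5)) ≤ z by omega))
  rw [hl] at h1 h2 h3
  have h4 := hx (d + l + 4 + (2 * c + 3)) (by omega)
  have h5 := hy (d + l + 4) (by omega)
  have h6 : 2 ^ (d + l + 4) ≤ _ := (card_range _).ge.trans (card_le_card (t := ((range
      (2 ^ (d + l + 4))).filter fun v => ¬ near (2 ^ c) (2 ^ d) (x + z) b (x + z + v)
        (f (x + z + v))) ∪ ((range (2 ^ (d + l + 4 + (2 * c + 3)))).filter fun v =>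
          ¬ near (2 ^ c) (2 ^ d) x b (x + v) (f (x + v))).image (· - z)) fun v hv => by
    by_contra! q
    simp only [mem_union, mem_filter, mem_image, not_or, not_exists, not_and, not_not] at q
    have q1 := (q.1 hv).1
    have hv := mem_range.1 hv
    have e1 : 2 ^ (d + (2 * c + 5) + l) = 2 ^ d * 2 ^ l * (2 ^ c * 2 ^ c) * 32 := by ring
    have e2 : 2 ^ (d + l + 4) = 2 ^ d * 2 ^ l * 16 := by ring
    have e3 : 2 ^ (d + l + 4 + (2 * c + 3)) = 2 ^ d * 2 ^ l * (2 ^ c * 2 ^ c) * 128 := by ring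
    rw [Nat.succ_eq_add_one, pow_succ] at h2
    have p1 : 1 ≤ 2 ^ c := Nat.one_le_two_pow
    have p2 : 2 ^ d ≤ 2 ^ d * 2 ^ l := Nat.le_mul_of_pos_right _ (by positivity)
    rw [e1] at h1 h2
    rw [e2] at hv
    generalize 2 ^ d * 2 ^ l = L at *
    have p3 := Nat.mul_le_mul_left L (Nat.mul_le_mul p1 p1)
    have q2 := (not_not.1 fun c => q.2 (z + v) ⟨mem_range.2 (by omega), c⟩ (by simp)).2
    rw [← add_assoc] at q2
    generalize 2 ^ c = C, 2 ^ d = D, f (x + z + v) = F at *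
    have q3 := Nat.mul_le_mul_left C q1
    have q4 := Nat.mul_le_mul_left (C * C) hv.le
    have q5 := Nat.mul_le_mul (show (C + 1) * (C + 1) ≤ 4 * (C * C) by nlinarith) p2
    nlinarith)
  have h7 := (h6.trans (card_union_le _ _)).trans (Nat.add_le_add_left card_image_le _)
  have e1 : 2 ^ (2 * c + 5) = 2 ^ (2 * c + 3) * 4 := by ring
  replace h4 := h4.trans_eq (pow_add _ (d + l + 4) _)
  rw [e1, ← mul_assoc, mul_right_comm] at h4
  have h8 := Nat.le_of_mul_le_mul_right h4 (by positivity)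
  have h9 := (Nat.mul_le_mul_left _ (show 4 ≤ 2 ^ (2 * c + 5) from
    e1 ▸ Nat.le_mul_of_pos_left _ (by positivity))).trans h5
  have : 0 < 2 ^ (d + l + 4) := by positivity
  omega

theorem tt_symm (hX : Rand X) (lX : LeftCE X) (hY : Rand Y) (lY : LeftCE Y) (h : TT Y X) :
    TT X Y := by
  classical
  obtain ⟨p, g, hp, hg, e⟩ := h
  obtain ⟨a, ha⟩ := apx hX lX
  obtain ⟨b, hb⟩ := apx hY lY
  obtain ⟨c1, k1⟩ := ks2 hX ha hb
  obtain ⟨c2, k2⟩ := ks2 hY hb ha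
  have pa := ha.prim
  have pb := hb.prim
  let P : ℕ → List ℕ → Prop := fun n l => l = p n
  have hP : RE fun z : ℕ × List ℕ => P z.1 z.2 := r_eq hp
  let Q : ℕ × List Bool → Bool → Prop := fun z v => v = g z.1 z.2
  have hQ : RE fun z : (ℕ × List Bool) × Bool => Q z.1 z.2 := r_eq hg
  let φ : ℕ → ℕ → ℕ → ℕ := fun k s y => num (fun n => g n ((p n).map (Z s y))) k
  let G : ℕ → ℕ → ℕ → ℕ → Prop := fun k s y f => ∃ L : List Bool, L.length = k ∧ f = nv L ∧
    ∀ n < k, ∃ l, P n l ∧ Q (n, l.map (Z s y)) (L.getD n false)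
  have hG : RE fun z : ℕ × ℕ × ℕ × ℕ => G z.1 z.2.1 z.2.2.1 z.2.2.2 :=
    RE.un (RE.re (by unfold G; clear_value P Q; fun_prop))
  have eG : ∀ k s y f, G k s y f ↔ f = φ k s y := fun k s y f => ⟨by
    rintro ⟨L, rfl, rfl, h⟩
    refine congrArg nv (List.ext_getElem (pre_len _ _).symm fun n h1 _ => ?_)
    obtain ⟨_, rfl, h2⟩ := h n h1
    simpa [pre, h1, Q] using h2, by
    rintro rfl
    exact ⟨_, pre_len _ _, rfl, fun n h => ⟨_, rfl, by simp [pre, h, Q]⟩⟩⟩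
  let U : ℕ → ℕ → Prop := fun k s => ∀ n < k, ∃ l, P n l ∧ ∀ i ∈ l, i < s
  have hU : RE fun z : ℕ × ℕ => U z.1 z.2 := RE.un (RE.re (by unfold U; clear_value P; fun_prop))
  have eU : ∀ k s, U k s → φ k s (num X s) = num Y k := fun k s h => num_congr fun n hn => by
    obtain ⟨_, rfl, h1⟩ := h n hn
    rw [e, List.map_congr_left fun i hi => Z_num X (h1 i hi)]
  have xU : ∀ k, ∃ d, U k (k + d) := fun k => ⟨(range k).sup fun n => (p n).sum + 1,
    fun n hn => ⟨_, rfl, fun i hi => by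
      have := List.single_le_sum (fun x _ => Nat.zero_le x) i hi
      have := le_sup (f := fun n => (p n).sum + 1) (mem_range.2 hn)
      omega⟩⟩
  clear_value G U φ
  clear hP hQ P Q
  let V : ℕ → ℕ → Prop := fun s y => ∃ k d u, s = k + d ∧ U k s ∧ ∃ f, G k s y f ∧
    ¬ near (2 ^ (c1 + c2)) (2 ^ d) (a (s + u) / 2 ^ u) (b (s + u) / 2 ^ (d + u)) y f
  obtain ⟨j, hj⟩ := dens hX ha (V := V) (RE.un (RE.re (by unfold V near; fun_prop))) (by
    rintro _ ⟨k, d, u, rfl, h1, f, h2, h3⟩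
    rw [eG, eU _ _ h1] at h2
    subst h2
    have h4 := k1 _ (Nat.pow_le_pow_right two_pos (Nat.le_add_right c1 c2)) (k + d) u k (d + u)
      (add_assoc _ _ _)
    have h5 := k2 _ (Nat.pow_le_pow_right two_pos (Nat.le_add_left c2 c1)) k (d + u) (k + d) u
      (add_assoc _ _ _).symm
    have h6 := Nat.mul_le_mul_right (2 ^ u) (Nat.one_le_two_pow (n := d))
    rw [← add_assoc] at h5
    refine h3 ⟨Nat.le_of_mul_le_mul_right ?_ (show 0 < 2 ^ u by positivity),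
      Nat.le_of_mul_le_mul_right ?_ (show 0 < 2 ^ u by positivity)⟩ <;>
    · generalize b (k + d + u) / 2 ^ (d + u) = B, a (k + d + u) / 2 ^ u = A at *
      rw [pow_add 2 d] at h4 h5
      nlinarith [Nat.mul_le_mul_left (2 ^ (c1 + c2)) h6]) (2 * (c1 + c2) + 5)
  obtain ⟨c, hc⟩ := hX.run
  let K : ℕ → ℕ := fun m => 2 * (m + 1) + c + (2 * (c1 + c2) + 6) + (j + 2)
  let C : ℕ → ℕ → ℕ → List ℕ → ℕ → Prop := fun m d b T x =>
    x / 2 ^ (K m + d - (j + 2)) = num X (j + 2) ∧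
      good (c1 + c2) d (K m + d - j) b (fun y => T.getD y 0) x
  obtain ⟨F, hF, eF⟩ := RE.choice (R := fun (z : ℕ × List Bool) (o : Bool) => ∃ d,
    U (K z.1) (K z.1 + d) ∧ ∃ T : List ℕ,
      (∀ y < 2 * 2 ^ (K z.1 + d), G (K z.1) (K z.1 + d) y (T.getD y 0)) ∧
      ((∃ x < 2 ^ (K z.1 + d), C z.1 d (nv z.2) T x ∧ o = Z (K z.1 + d) x z.1) ∨
        ∀ x < 2 ^ (K z.1 + d), ¬ C z.1 d (nv z.2) T x)) (by unfold C K good near; fun_prop)
    fun z => by
      obtain ⟨d, hd⟩ := xU (K z.1)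
      by_cases q : ∃ x < 2 ^ (K z.1 + d), C z.1 d (nv z.2)
        ((List.range (2 * 2 ^ (K z.1 + d))).map (φ (K z.1) (K z.1 + d))) x
      · obtain ⟨x, q1, q2⟩ := q
        exact ⟨_, d, hd, _, fun y hy => (eG ..).2 (by simp [hy]), Or.inl ⟨x, q1, q2, rfl⟩⟩
      · exact ⟨true, d, hd, _, fun y hy => (eG ..).2 (by simp [hy]),
          Or.inr fun x q1 q2 => q ⟨x, q1, q2⟩⟩
  refine ⟨fun m => List.range (K m), fun m L => F (m, L), by unfold K; fun_prop, hF, fun m => ?_⟩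
  obtain ⟨d, h1, T, h2, h3⟩ := eF (m, pre Y (K m))
  dsimp only at h1 h2 h3
  have k0 : 2 * (m + 1) + c + (2 * (c1 + c2) + 6) + (j + 2) = K m := rfl
  have h4 : C m d (num Y (K m)) T (num X (K m + d)) := ⟨num_div' X (by omega), fun i hi => by
    obtain ⟨w, hw⟩ := Nat.exists_eq_add_of_le' (show i ≤ K m + d by omega)
    have := hj w (by omega) i
    rw [← hw] at this
    refine le_trans (Nat.mul_le_mul_right _ (card_le_card fun v hv => ?_)) this
    simp only [mem_filter, mem_range] at hv ⊢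
    obtain ⟨t1, q1⟩ := ha.ev (K m + d)
    obtain ⟨t2, q2⟩ := hb.ev (K m)
    have := num_lt X (K m + d)
    have := Nat.pow_le_pow_right two_pos (show i ≤ K m + d by omega)
    refine ⟨hv.1, _, d, t1 + t2, rfl, h1, _, h2 _ (by omega), ?_⟩
    rw [(q1 _ (by omega)).2, add_assoc (K m), (q2 _ (by omega)).2]
    exact hv.2⟩
  obtain ⟨x, -, h5, h6⟩ := h3.resolve_right fun q => q _ (num_lt _ _) h4
  refine Eq.trans ?_ h6.symm
  have h7 : ∀ x y, C m d (num Y (K m)) T x → C m d (num Y (K m)) T y →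
      y ≤ x + 2 ^ (d + (2 * (c1 + c2) + 5)) := fun x y ⟨a1, a2⟩ ⟨a3, a4⟩ => by
    rw [show K m + d - j = K m + d - (j + 2) + 2 by omega] at a2 a4
    refine uniq a2 a4 ?_
    have a5 := Nat.div_add_mod x (2 ^ (K m + d - (j + 2)))
    have a6 := Nat.div_add_mod y (2 ^ (K m + d - (j + 2)))
    have a7 := Nat.mod_lt y (show 0 < 2 ^ (K m + d - (j + 2)) by positivity)
    rw [a1] at a5
    rw [a3] at a6
    omega
  have h8 := h7 _ _ h4 h5
  have h9 := h7 _ _ h5 h4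
  have key : ∀ v, ∃ i w, m + 1 ≤ i ∧ X i = v ∧ K m + d = i + 1 + w ∧
      2 ^ (d + (2 * (c1 + c2) + 5)) < 2 ^ w := fun v =>
    let ⟨i, a1, a2, a3⟩ := hc (m + 1) v
    ⟨i, K m + d - (i + 1), a1, a3, by omega, Nat.pow_lt_pow_right one_lt_two (by omega)⟩
  obtain ⟨i, w, a1, a2, a3, a4⟩ := key true
  obtain ⟨i', w', b1, b2, b3, b4⟩ := key false
  have a5 := (gap (d := w) a1).1 a2
  have b5 := (gap (d := w') b1).2 b2
  rw [← a3] at a5
  rw [← b3] at b5
  rw [← Z_num X (show m < K m + d by omega), Z, Z, show K m + d - 1 - m = K m + d - (m + 1) by omega,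
    num_div' X (by omega), Nat.div_eq_of_lt_le (k := num X (m + 1)) (by omega) (by omega)]

end Pool.Agent.H.MP_a2e505_lc
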