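import Pool.Agent.H.MP_a2e505_lc.A

set_option autoImplicit false

/-! A left enumerable random real, and division by three. -/

namespace Pool.Agent.H.MP_a2e505_lc

open Pool.Agent.H.MP_fa2eca_lc Pool.Agent.Lib.helper21.PR Pool.Agent.Lib.helper21.ML Finset
open Pool.Agent.Lib.helper21 MeasureTheory Nat.Partrec

attribute [local irreducible] Primrec Computable

/-- Strong weak truth table reducibility. -/
def SW (A B : ℕ → Bool) : Prop :=
  ∃ (G : ℕ × List Bool →. Bool) (c : ℕ), Partrec G ∧ ∀ n, A n ∈ G (n, pre B (n + c))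

theorem Z_div {t i : ℕ} (d y : ℕ) (h : i < t) : Z (t + d) y i = Z t (y / 2 ^ d) i := by
  rw [Z, Z, Nat.div_div_eq_div_mul, ← pow_add, show t + d - 1 - i = d + (t - 1 - i) by omega]

theorem pre_div {t m : ℕ} (d y : ℕ) (h : m ≤ t) : pre (Z (t + d) y) m = pre (Z t (y / 2 ^ d)) m :=
  pre_congr fun _ hi => Z_div d y (hi.trans_le h)

@[fun_prop] theorem p_preZ {α : Type} [Primcodable α] {s y m : α → ℕ} (hs : Primrec s)
    (hy : Primrec y) (hm : Primrec m) : Primrec fun a => pre (Z (s a) (y a)) (m a) := by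
  unfold pre; fun_prop

variable {X : ℕ → Bool} {a : ℕ → ℕ}

theorem leftCE (h : Apx X a) : LeftCE X := by
  have := h.prim
  refine (RE.re (p := fun z : ℕ × ℕ => ∃ s, z.1 * 2 ^ s < a s * 2 ^ z.2) (by fun_prop)).of_eq
    fun z => Iff.trans ⟨fun ⟨s, hs⟩ => ⟨s, hs.trans_le (Nat.mul_le_mul_right _ (h.le s))⟩,
      fun ⟨s, hs⟩ => ?_⟩ lt_val.symm
  obtain ⟨d, hd⟩ := h.lim s
  refine ⟨s + d, lt_of_lt_of_le ?_ (Nat.mul_le_mul_right _ hd)⟩
  rw [pow_add, ← mul_assoc, mul_right_comm _ (2 ^ d)]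
  exact Nat.mul_lt_mul_of_pos_right hs (by positivity)

theorem num_lim {n : ℕ → ℕ} (h0 : n 0 = 0) (h : ∀ k, n (k + 1) / 2 = n k) (k : ℕ) :
    num (fun i => decide (n (i + 1) % 2 = 1)) k = n k := by
  induction k with
  | zero => exact h0.symm
  | succ k ih =>
    rw [num_succ, ih, ← h]
    rcases Nat.mod_two_eq_zero_or_one (n (k + 1)) with e | e <;> simp [e] <;> omega

theorem om : ∃ X a, Rand X ∧ Apx X a := by
  classical
  let cov : ℕ → ℕ → ℕ → Prop := fun e t y => ∃ m ≤ t, (Code.evaln t (Denumerable.ofNat Code e)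
    (Encodable.encode (e + 2, pre (Z t y) m))).isSome = true
  let ok : ℕ → ℕ → Prop := fun e t => ((range (2 ^ t)).filter (cov e t)).card * 2 ^ (e + 2) ≤ 2 ^ t
  let U : ℕ → ℕ → Prop := fun s y => ∃ e < s, ∃ t ≤ s, ok e t ∧ cov e t (y / 2 ^ (s - t))
  have c1 : ∀ e t d y, cov e t (y / 2 ^ d) → cov e (t + d) y := fun e t d y ⟨m, h1, h2⟩ =>
    let ⟨x, hx⟩ := Option.isSome_iff_exists.1 h2
    ⟨m, by omega, Option.isSome_iff_exists.2 ⟨x, pre_div d y h1 ▸ Code.evaln_mono (by omega) hx⟩⟩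
  have c2 : ∀ s d y, U s (y / 2 ^ d) → U (s + d) y := fun s d y ⟨e, h1, t, h2, h3, h4⟩ =>
    ⟨e, by omega, t, by omega, h3, by
      rwa [Nat.div_div_eq_div_mul, ← pow_add, show d + (s - t) = s + d - t by omega] at h4⟩
  obtain ⟨Y, hY⟩ : ∃ Y, Y ∉ ⋃ e, ⋃ s, {Y | ∃ t ≤ s, ok e t ∧ cov e t (num Y t)} := by
    by_contra! q
    have h1 : ∀ e, Fn.mu (⋃ s, {Y | ∃ t ≤ s, ok e t ∧ cov e t (num Y t)}) ≤ 2⁻¹ ^ (e + 2) := by
      intro e
      rw [Monotone.measure_iUnion (s := fun s => {Y | ∃ t ≤ s, ok e t ∧ cov e t (num Y t)})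
        fun s s' h Y ⟨t, h1, h2⟩ => ⟨t, h1.trans h, h2⟩]
      refine iSup_le fun s => ?_
      by_cases c : ∃ t ≤ s, ok e t
      · obtain ⟨t, h1, h2⟩ := c
        refine le_trans (measure_mono fun Y ⟨u, h3, h4, h5⟩ => ?_)
          (mu_le.2 (Nat.findGreatest_spec (P := ok e) h1 h2))
        obtain ⟨d, hd⟩ := Nat.exists_eq_add_of_le (Nat.le_findGreatest h3 h4)
        rw [Set.mem_setOf_eq, hd]
        exact c1 _ _ _ _ (by rwa [num_div])
      · exact le_trans (measure_mono (t := ∅) fun Y ⟨t, h1, h2, _⟩ => c ⟨t, h1, h2⟩) (by simp)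
    have h2 := (measure_iUnion_le _).trans (ENNReal.tsum_le_tsum h1)
    simp only [Set.eq_univ_of_forall q, measure_univ, pow_add, ENNReal.tsum_mul_right,
      ENNReal.tsum_geometric, ENNReal.one_sub_inv_two, inv_inv, pow_two] at h2
    rw [← mul_assoc, ENNReal.mul_inv_cancel (by simp) (by simp)] at h2
    simp at h2
  have c3 : ∀ s, ∃ y, y < 2 ^ s ∧ ¬ U s y := fun s => ⟨_, num_lt Y s, fun ⟨e, _, t, h1, h2, h3⟩ =>
    hY (Set.mem_iUnion₂.2 ⟨e, s, t, h1, h2, num_div' Y h1 ▸ h3⟩)⟩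
  let a : ℕ → ℕ := fun s => Nat.find (c3 s)
  have c4 : ∀ s d, a s ≤ a (s + d) / 2 ^ d := fun s d => Nat.find_min' _ ⟨Nat.div_lt_of_lt_mul (by
    rw [← pow_add, add_comm]; exact (Nat.find_spec (c3 _)).1),
    fun h => (Nat.find_spec (c3 _)).2 (c2 _ _ _ h)⟩
  choose n d hn using fun k => converges_of_monotone_of_bounded (f := fun d => a (k + d) / 2 ^ d)
    (monotone_nat_of_le_succ fun d => by
      rw [pow_succ', ← Nat.div_div_eq_div_mul]
      exact Nat.div_le_div_right (by simpa using c4 (k + d) 1)) (c := 2 ^ k) fun d =>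
    (Nat.div_lt_of_lt_mul (by rw [← pow_add, add_comm d]; exact (Nat.find_spec (c3 _)).1)).le
  have c5 := num_lim (n := n) (by
    rw [← hn 0 _ le_rfl]
    exact Nat.div_eq_of_lt (by rw [zero_add]; exact (Nat.find_spec (c3 (d 0))).1)) fun k => by
    rw [← hn (k + 1) (d (k + 1) + d k) (by omega), ← hn k (d (k + 1) + d k + 1) (by omega),
      Nat.div_div_eq_div_mul, ← pow_succ, add_right_comm, add_assoc]
  refine ⟨fun i => decide (n (i + 1) % 2 = 1), a, fun W hW hm => ?_, ?_,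
    fun s => by have := c4 s 1; omega, fun s => ?_, fun k => ⟨d k, ?_⟩⟩
  · generalize (fun i => decide (n (i + 1) % 2 = 1)) = X at c5 ⊢
    by_contra! q
    obtain ⟨c, hc⟩ := Code.exists_code.1 hW
    have key : ∀ z : ℕ × List Bool, W z.1 z.2 ↔ ∃ x, x ∈ c.eval (Encodable.encode z) := fun z => by
      rw [hc]
      simp [Part.mem_assert_iff]
    obtain ⟨m, h1⟩ := q (Encodable.encode c + 2)
    obtain ⟨x, h2⟩ := (key (_, _)).1 h1
    obtain ⟨t, h3⟩ := Code.evaln_complete.1 h2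
    refine (Nat.find_spec (c3 (t + m + Encodable.encode c + 1 +
      d (t + m + Encodable.encode c + 1)))).2 (c2 _ _ _ ⟨Encodable.encode c,
      by omega, _, le_rfl, mu_le.1 (le_trans (measure_mono fun Y ⟨m, h4, h5⟩ => ?_) (hm _)), m,
      by omega, Option.isSome_iff_exists.2 ⟨x, ?_⟩⟩)
    · obtain ⟨x, hx⟩ := Option.isSome_iff_exists.1 h5
      rw [pre_Z Y h4, Denumerable.ofNat_encode] at hx
      exact ⟨m, (key (_, _)).2 ⟨x, Code.evaln_sound hx⟩⟩
    · rw [Nat.sub_self, pow_zero, Nat.div_one, show Nat.find _ / _ = _ from hn _ _ le_rfl, ← c5,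
        pre_Z X (by omega), Denumerable.ofNat_encode]
      exact Code.evaln_mono (by omega) h3
  · refine Primrec.of_eq (f := fun s => (List.range (2 ^ s)).findIdx fun y => decide (¬ U s y))
      (by unfold U ok cov; fun_prop) fun s => ?_
    refine (List.findIdx_eq (by rw [List.length_range]; exact (Nat.find_spec (c3 s)).1)).2
      ⟨by simpa using (Nat.find_spec (c3 s)).2, fun j hj => ?_⟩
    simpa using not_and.1 (Nat.find_min (c3 s) hj) (hj.trans (Nat.find_spec (c3 s)).1)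
  · rw [c5, ← hn _ _ le_rfl]
    exact c4 _ _
  · rw [c5, ← hn _ _ le_rfl]
    exact Nat.div_mul_le_self _ _

def D (X : ℕ → Bool) (i : ℕ) : Bool := decide (num X (i + 1) / 3 % 2 = 1)

theorem num_D (X : ℕ → Bool) (k : ℕ) : num (D X) k = num X k / 3 :=
  num_lim (n := fun k => num X k / 3) (by simp [num_zero]) (fun k => by
    have := (X k).toNat_le
    rw [num_succ]
    omega) k

theorem apx_D (h : Apx X a) : Apx (D X) fun s => a s / 3 := by
  have := h.prim
  refine ⟨by fun_prop, fun s => by have := h.mono s; omega,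
    fun s => num_D X s ▸ Nat.div_le_div_right (h.le s), fun k => (h.lim k).imp fun d hd => ?_⟩
  rw [num_D, Nat.le_div_iff_mul_le (by norm_num), mul_right_comm]
  exact (Nat.mul_le_mul_right _ (Nat.div_mul_le_self _ _)).trans hd

theorem rand_D (h : Rand X) : Rand (D X) := by
  classical
  intro W hW hm
  replace hW := RE.un hW
  obtain ⟨n, hn⟩ := h.mono (V := fun n s y => ∃ m ≤ s, W (n + 2) (pre (Z s (y / 3)) m))
    (RE.un (RE.re (p := fun z : ℕ × ℕ × ℕ => ∃ m, m ≤ z.2.1 ∧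
      W (z.1 + 2) (pre (Z z.2.1 (z.2.2 / 3)) m)) (by fun_prop)))
    (fun n s y ⟨m, h1, h2⟩ => ⟨m, by omega, by
      rwa [pre_div 1 _ h1, show y / 3 / 2 ^ 1 = y / 2 / 3 by omega]⟩) fun n s => by
    have h1 := (mu_le (s := s) (p := fun y => ∃ m ≤ s, W (n + 2) (pre (Z s y) m))).1
      (le_trans (measure_mono (t := {Y | ∃ m, W (n + 2) (pre Y m)})
        fun Y ⟨m, h4, h5⟩ => ⟨m, pre_Z Y h4 ▸ h5⟩) (hm (n + 2)))
    refine le_trans (Nat.mul_le_mul_right _ (card_le_mul_card_image_of_maps_to (f := (· / 3))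
      (t := (range (2 ^ s)).filter fun y => ∃ m ≤ s, W (n + 2) (pre (Z s y) m))
      (fun y hy => ?_) 3 fun x _ => (card_le_card (t := Ico (3 * x) (3 * x + 3))
        fun y hy => ?_).trans (by simp))) ?_
    · simp only [mem_filter, mem_range] at hy ⊢
      exact ⟨by omega, hy.2⟩
    · have := (mem_filter.1 hy).2
      simp only [mem_Ico]
      omega
    · rw [pow_add, ← mul_assoc] at h1
      rw [mul_assoc]
      omega
  exact ⟨n + 2, fun m hm => hn m ⟨m, le_rfl, by rwa [← num_D, pre_Z _ le_rfl]⟩⟩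

theorem sw_D (X : ℕ → Bool) : SW (D X) X :=
  ⟨fun z => Part.some (decide (nv z.2 / 3 % 2 = 1)), 1,
    (show Computable fun z : ℕ × List Bool => decide (nv z.2 / 3 % 2 = 1) by fun_prop).partrec,
    fun _ => Part.mem_some _⟩

theorem not_sw (h : Rand X) : ¬ SW X (D X) := by
  classical
  rintro ⟨G, c, hG, e⟩
  let P : ℕ × List Bool → Bool → Prop := fun z b => b ∈ G z
  have hP : RE fun z : (ℕ × List Bool) × Bool => P z.1 z.2 := RE.un (r_graph hG).re
  let S : ℕ → ℕ → Prop := fun s y => ∀ n < s - c, P (n, pre (Z s (y / 3)) (n + c)) (Z s y n)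
  have h1 : ∀ t, ((range (2 ^ ((c + 2) * t))).filter (S ((c + 2) * t))).card ≤
      (2 ^ (c + 2) - 1) ^ t := fun t => by
    induction t with
    | zero => exact card_filter_le _ _
    | succ t ih =>
      rw [pow_succ' _ t, mul_add, mul_one]
      generalize (c + 2) * t = s at ih ⊢
      refine le_trans (card_le_mul_card_image_of_maps_to (f := (· / 2 ^ (c + 2)))
        (fun y hy => ?_) _ fun x _ => ?_) (Nat.mul_le_mul_left _ ih)
      · simp only [mem_filter, mem_range] at hy ⊢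
        refine ⟨Nat.div_lt_of_lt_mul (by rw [← pow_add, add_comm]; exact hy.1), fun n hn => ?_⟩
        have := hy.2 n (by omega)
        rwa [pre_div _ _ (by omega), Z_div _ _ (by omega), Nat.div_div_eq_div_mul, mul_comm,
          ← Nat.div_div_eq_div_mul] at this
      · obtain ⟨i, a1, a2, a3⟩ : ∃ i, 1 ≤ i ∧ i ≤ 2 ∧ ¬ 3 ∣ (4 * x + i) * 2 ^ c := by
          by_contra! q
          have b1 := q 1 le_rfl one_le_two
          have b2 := q 2 one_le_two le_rfl
          rw [show (4 * x + 2) * 2 ^ c = (4 * x + 1) * 2 ^ c + 2 ^ c by ring,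
            Nat.dvd_add_right b1] at b2
          exact absurd (Nat.prime_three.dvd_of_dvd_pow b2) (by norm_num)
        have p0 : 0 < 2 ^ c := by positivity
        have p1 : (4 * x + i) * 2 ^ c = 4 * (x * 2 ^ c) + i * 2 ^ c := by ring
        have p2 := Nat.mul_le_mul_right (2 ^ c) a1
        have p3 := Nat.mul_le_mul_right (2 ^ c) a2
        have p4 : 2 ^ (c + 2) = 4 * 2 ^ c := by ring
        obtain ⟨y, b1, b2⟩ : ∃ y, (y = (4 * x + i) * 2 ^ c ∨ y = (4 * x + i) * 2 ^ c - 1) ∧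
            ¬ S (s + (c + 2)) y := by
          by_contra! q
          have b1 := q _ (Or.inl rfl) (s + 1) (by omega)
          have b2 := q _ (Or.inr rfl) (s + 1) (by omega)
          rw [show ((4 * x + i) * 2 ^ c - 1) / 3 = (4 * x + i) * 2 ^ c / 3 by omega] at b2
          have b3 := Part.mem_unique b1 b2
          rw [Z, Z, show s + (c + 2) - 1 - (s + 1) = c by omega, Nat.mul_div_cancel _ p0,
            Nat.div_eq_of_lt_le (k := 4 * x + i - 1) (by rw [Nat.sub_mul]; omega)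
              (by rw [Nat.sub_add_cancel (by omega)]; omega), decide_eq_decide] at b3
          omega
        refine (card_le_card (t := (Ico (4 * (x * 2 ^ c)) (4 * (x * 2 ^ c) + 2 ^ (c + 2))).erase y)
          fun z hz => ?_).trans (by rw [card_erase_of_mem (mem_Ico.2 (by omega))]; simp)
        simp only [mem_filter] at hz
        have b3 := Nat.div_add_mod z (2 ^ (c + 2))
        have b4 := Nat.mod_lt z (show 0 < 2 ^ (c + 2) by positivity)
        rw [hz.2, p4, mul_assoc, mul_comm _ x, ← p4] at b3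
        exact mem_erase.2 ⟨fun q => b2 (q ▸ hz.1.2), mem_Ico.2 (by omega)⟩
  obtain ⟨n, hn⟩ := h.cell (V := fun n s y => s = (c + 2) * (2 ^ (c + 2) * n) ∧ S s y)
    (RE.un (RE.re (by unfold S; clear_value P; fun_prop))) fun n => by
    refine le_trans (measure_mono (Set.iUnion_subset fun s Y ⟨b1, b2⟩ => b1 ▸ b2)) (mu_le.2
      ((Nat.mul_le_mul_right _ (h1 _)).trans ?_))
    obtain ⟨E, hE⟩ := Nat.exists_eq_add_of_le' (Nat.one_le_two_pow (n := c + 2))
    rw [pow_mul 2, hE, Nat.add_sub_cancel, pow_mul, pow_mul, ← mul_pow, mul_comm]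
    exact Nat.pow_le_pow_left (half E) n
  exact hn _ ⟨rfl, fun m hm => by
    rw [← num_D, pre_Z _ (by omega), Z_num _ (by omega)]; exact e m⟩

end Pool.Agent.H.MP_a2e505_lc
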